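import Pool.Agent.Run7.h104.AC.Defs

set_option autoImplicit false

/-! Piece NB of project AC (helper104), by helper613. -/

namespace Run7.h613.AC.NB

open MeasureTheory Complex Set Filter Topology Metric
open Pool.Agent.Run7.h104.AC

noncomputable section

theorem Cd_open {V : Set ℂ} (hV : IsOpen V) : IsOpen (Cd '' V) := by
  have hd : Differentiable ℂ Cd := by unfold Cd; fun_prop
  have han : AnalyticOnNhd ℂ Cd univ := hd.differentiableOn.analyticOnNhd isOpen_univ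
  rcases han.is_constant_or_isOpen isPreconnected_univ with h | h
  · obtain ⟨w, hw⟩ := h
    exfalso
    have h0 := hw 0 (mem_univ _)
    have h1 := hw 1 (mem_univ _)
    unfold Cd at h0 h1
    rw [← h0] at h1
    norm_num at h1
  · exact h V (subset_univ _) hV

theorem F_open {R0 β : ℝ} {F : ℂ → ℂ} (h : Uni R0 β F) {V : Set ℂ} (hV : IsOpen V) (hs : V ⊆ ball 0 R0) :
    IsOpen (F '' V) := by
  have han : AnalyticOnNhd ℂ F (ball 0 R0) := h.hF.analyticOnNhd isOpen_ball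
  rcases han.is_constant_or_isOpen (convex_ball 0 R0).isPreconnected with h1 | h1
  · obtain ⟨w, hw⟩ := h1
    exfalso
    have hR := h.hR
    have a0 : (0 : ℂ) ∈ ball (0 : ℂ) R0 := mem_ball_self (by linarith)
    have a1 : (1 : ℂ) ∈ ball (0 : ℂ) R0 := by rw [mem_ball_zero_iff]; simpa using hR
    have := h.inj a0 a1 ((hw 0 a0).trans (hw 1 a1).symm)
    exact zero_ne_one this
  · exact h1 V hs hV

theorem Kb_lower {t : ℂ} (ht : ‖t‖ < 1) : ‖t‖ / 4 ≤ ‖Kb t‖ := by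
  unfold Kb
  have h1 : (1 - t) ≠ 0 := by
    intro h
    have : t = 1 := by linear_combination -h
    rw [this] at ht
    simp at ht
  have h2 : ‖1 - t‖ ≤ 2 := by
    refine (norm_sub_le _ _).trans ?_
    rw [norm_one]
    linarith
  have h3 : 0 < ‖1 - t‖ := norm_pos_iff.2 h1
  rw [norm_div, norm_pow]
  refine div_le_div_of_nonneg_left (norm_nonneg _) (by positivity) ?_
  nlinarith

/-- the Koebe function to the second order -/
theorem Kb_exp {t : ℂ} (ht : ‖t‖ ≤ 1 / 2) : ‖Kb t - (t + 2 * t ^ 2)‖ ≤ 16 * ‖t‖ ^ 3 := by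
  have h1 : (1 - t) ≠ 0 := by
    intro h
    have : t = 1 := by linear_combination -h
    rw [this] at ht
    norm_num at ht
  have e : Kb t - (t + 2 * t ^ 2) = t ^ 3 * (3 - 2 * t) / (1 - t) ^ 2 := by
    unfold Kb
    field_simp
    ring
  have h2 : 1 / 2 ≤ ‖1 - t‖ := by
    have := norm_sub_norm_le (1 : ℂ) t
    rw [norm_one] at this
    linarith
  have h3 : ‖3 - 2 * t‖ ≤ 4 := by
    refine (norm_sub_le _ _).trans ?_
    rw [norm_mul]
    norm_num
    linarith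
  rw [e, norm_div, norm_mul, norm_pow, norm_pow, div_le_iff₀ (by positivity)]
  have h4 : (1 / 2) ^ 2 ≤ ‖1 - t‖ ^ 2 := by gcongr
  have h5 : 0 ≤ ‖t‖ ^ 3 := by positivity
  calc ‖t‖ ^ 3 * ‖3 - 2 * t‖ ≤ ‖t‖ ^ 3 * 4 := mul_le_mul_of_nonneg_left h3 h5
    _ = 16 * ‖t‖ ^ 3 * (1 / 2) ^ 2 := by ring
    _ ≤ 16 * ‖t‖ ^ 3 * ‖1 - t‖ ^ 2 := mul_le_mul_of_nonneg_left h4 (by positivity)

theorem Kb_cont : ContinuousOn Kb (ball 0 1) := by
  unfold Kb
  refine ContinuousOn.div continuousOn_id (by fun_prop) fun t ht => ?_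
  rw [mem_ball_zero_iff] at ht
  refine pow_ne_zero 2 fun h => ?_
  have : t = 1 := by linear_combination -h
  rw [this] at ht
  simp at ht

theorem Mset_open (η : ℝ) : IsOpen (Mset η) := by
  unfold Mset
  exact (Kb_cont.norm.isOpen_inter_preimage isOpen_ball (isOpen_Iio (a := η)))

theorem Mset_sub {η : ℝ} {t : ℂ} (h : t ∈ Mset η) : ‖t‖ < 4 * η := by
  have h1 : ‖t‖ < 1 := by simpa using h.1
  have h2 := Kb_lower h1
  have h3 : ‖Kb t‖ < η := h.2
  linarith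

theorem Nset_open {R0 β : ℝ} {F : ℂ → ℂ} (h : Uni R0 β F) (η : ℝ) : IsOpen (Nset F η) := by
  have h1 : ContinuousOn F (ball 0 1) := h.hF.continuousOn.mono (ball_subset_ball h.hR.le)
  have h2 := h1.isOpen_inter_preimage isOpen_ball (Cd_open (Mset_open η))
  exact h2

theorem t_NB (hT : S_TAY) (hR : S_RHO) : S_NB := by
  intro R0 β F hU
  obtain ⟨C, δ0, hC, hδ0, hδ01, hTay⟩ := hT R0 β F hU
  have hβ := hU.hβ
  set γ : ℝ := |2 * β - 2 * β ^ 2| with hγ
  have hγ0 : 0 ≤ γ := abs_nonneg _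
  -- the radius
  set δ1 : ℝ := min (min δ0 (1 / 2)) (β / (2 * (γ + C + 1))) with hδ1
  have hδ1p : 0 < δ1 := by
    rw [hδ1]
    refine lt_min (lt_min hδ0 (by norm_num)) (by positivity)
  have hδ1a : δ1 ≤ δ0 := (min_le_left _ _).trans (min_le_left _ _)
  have hδ1b : δ1 ≤ 1 / 2 := (min_le_left _ _).trans (min_le_right _ _)
  have hδ1c : δ1 * (γ + C) ≤ β / 2 := by
    have h1 : δ1 ≤ β / (2 * (γ + C + 1)) := min_le_right _ _
    have h2 : 0 < 2 * (γ + C + 1) := by positivity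
    rw [le_div_iff₀ h2] at h1
    nlinarith
  have hR0 := hU.hR
  have hop : IsOpen (F '' ball 0 δ1) := F_open hU isOpen_ball (ball_subset_ball (by linarith))
  have h0mem : (0 : ℂ) ∈ F '' ball 0 δ1 := ⟨0, mem_ball_self hδ1p, hU.F0⟩
  obtain ⟨r, hr, hrs⟩ := Metric.isOpen_iff.1 hop 0 h0mem
  have hCd : ∀ t : ℂ, ‖t‖ ≤ 1 → ‖Cd t‖ ≤ 2 * ‖t‖ := by
    intro t ht
    unfold Cd
    refine (norm_add_le _ _).trans ?_
    rw [norm_div, norm_pow, RCLike.norm_ofNat]
    have := norm_nonneg t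
    nlinarith
  set C1 : ℝ := C + 2 * (γ + C) * (γ + C + 2 * β) + 16 * (γ + C + β) ^ 3 + 16 * β with hC1
  have hC1p : 0 < C1 := by positivity
  refine ⟨8 / β + C1 * 512 / β ^ 4, min (1 / 8) (r / 8), by positivity, by positivity, fun η hη hη0 => ?_⟩
  have hη1 : η < 1 / 8 := lt_of_lt_of_le hη0 (min_le_left _ _)
  have hη2 : η < r / 8 := lt_of_lt_of_le hη0 (min_le_right _ _)
  have hsub : Cd '' Mset η ⊆ F '' ball 0 δ1 := by
    rintro _ ⟨t, ht, rfl⟩
    refine hrs ?_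
    rw [mem_ball_zero_iff]
    have h1 := Mset_sub ht
    have h2 := hCd t (by linarith)
    linarith
  have hmain : ∀ z ∈ Nset F η, ‖z‖ < δ1 ∧ ∃ t : ℂ, ‖t‖ < 1 / 2 ∧ ‖t‖ < 4 * η ∧ ‖Kb t‖ < η ∧
      ‖t - (β * z + (2 * β - 2 * β ^ 2) * z ^ 2)‖ ≤ C * ‖z‖ ^ 3 := by
    rintro z ⟨hz1, t, ht, htz⟩
    obtain ⟨z', hz', hzz⟩ := hsub ⟨t, ht, rfl⟩
    have h1 : z = z' := by
      refine hU.inj (ball_subset_ball hR0.le hz1) (ball_subset_ball (by linarith) hz') ?_
      rw [← htz, hzz]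
    rw [← h1, mem_ball_zero_iff] at hz'
    refine ⟨hz', ?_⟩
    obtain ⟨-, -, t', ht', ht'2, ht'3⟩ := hTay z (by linarith)
    have h2 : t = t' := by
      refine hR.1 ht.1 ?_ (htz.trans ht'2.symm)
      rw [mem_ball_zero_iff]
      linarith
    rw [← h2] at ht' ht'3
    exact ⟨t, ht', Mset_sub ht, ht.2, ht'3⟩
  have hbd : ∀ z ∈ Nset F η, ‖z‖ < 8 / β * η ∧ ‖Kb z‖ < η / β + C1 * 512 / β ^ 4 * η ^ 3 := by
    intro z hz
    obtain ⟨hz1, t, ht1, ht2, ht3, ht4⟩ := hmain z hz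
    have hz0 := norm_nonneg z
    have hzh : ‖z‖ ≤ 1 / 2 := by linarith
    -- `t - β z`
    have ea : ‖t - β * z‖ ≤ (γ + C) * ‖z‖ ^ 2 := by
      have e1 : t - β * z = (t - (β * z + (2 * β - 2 * β ^ 2) * z ^ 2)) + (((2 * β - 2 * β ^ 2 : ℝ) : ℂ)) * z ^ 2 := by
        push_cast
        ring
      rw [e1]
      refine (norm_add_le _ _).trans ?_
      rw [norm_mul, norm_pow, norm_real, Real.norm_eq_abs, ← hγ]
      have : C * ‖z‖ ^ 3 ≤ C * ‖z‖ ^ 2 := by
        refine mul_le_mul_of_nonneg_left ?_ hC.le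
        exact pow_le_pow_of_le_one hz0 (by linarith) (by norm_num)
      linarith
    have eb : ‖t - β * z‖ ≤ (γ + C) * ‖z‖ := by
      refine ea.trans ?_
      refine mul_le_mul_of_nonneg_left ?_ (by positivity)
      nlinarith
    have hβz : ‖(β : ℂ) * z‖ = β * ‖z‖ := by rw [norm_mul, norm_real, Real.norm_of_nonneg hβ.le]
    have ec : ‖t‖ ≤ (γ + C + β) * ‖z‖ := by
      have e0 : (t - β * z) + β * z = t := by ring
      have e1 := norm_add_le (t - β * z) (β * z)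
      rw [e0, hβz] at e1
      linarith
    have ed : β / 2 * ‖z‖ ≤ ‖t‖ := by
      have h1 : ‖(β : ℂ) * z‖ ≤ ‖t‖ + ‖t - β * z‖ := by
        have e0 : t - (t - β * z) = (β : ℂ) * z := by ring
        have e1 := norm_sub_le t (t - β * z)
        rwa [e0] at e1
      rw [hβz] at h1
      have h2 : (γ + C) * ‖z‖ ^ 2 ≤ β / 2 * ‖z‖ := by
        have h3 : (γ + C) * ‖z‖ ≤ β / 2 := by
          refine le_trans ?_ hδ1c
          rw [mul_comm]
          exact mul_le_mul_of_nonneg_right hz1.le (by positivity)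
        nlinarith
      linarith
    have hzη : ‖z‖ < 8 / β * η := by
      have h1 : β / 2 * ‖z‖ < 4 * η := lt_of_le_of_lt ed ht2
      rw [div_mul_eq_mul_div, lt_div_iff₀ hβ]
      linarith
    refine ⟨hzη, ?_⟩
    -- Koebe
    have k1 := Kb_exp (t := t) (by linarith)
    have k2 := Kb_exp (t := z) hzh
    have k3 : ‖Kb t - β * Kb z‖ ≤ C1 * ‖z‖ ^ 3 := by
      have e1 : Kb t - β * Kb z = (Kb t - (t + 2 * t ^ 2)) - β * (Kb z - (z + 2 * z ^ 2)) +
          (t - (β * z + (2 * β - 2 * β ^ 2) * z ^ 2)) + 2 * ((t - β * z) * (t + β * z)) := by ring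
      rw [e1]
      have n1 : ‖(β : ℂ) * (Kb z - (z + 2 * z ^ 2))‖ ≤ 16 * β * ‖z‖ ^ 3 := by
        rw [norm_mul, norm_real, Real.norm_of_nonneg hβ.le]
        nlinarith
      have n2 : ‖t + β * z‖ ≤ (γ + C + 2 * β) * ‖z‖ := by
        refine (norm_add_le _ _).trans ?_
        rw [hβz]
        linarith
      have n3 : ‖(2 : ℂ) * ((t - β * z) * (t + β * z))‖ ≤ 2 * (γ + C) * (γ + C + 2 * β) * ‖z‖ ^ 3 := by
        rw [norm_mul, norm_mul, RCLike.norm_ofNat]
        calc 2 * (‖t - β * z‖ * ‖t + β * z‖) ≤ 2 * (((γ + C) * ‖z‖ ^ 2) * ((γ + C + 2 * β) * ‖z‖)) := by gcongr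
          _ = _ := by ring
      have n4 : 16 * ‖t‖ ^ 3 ≤ 16 * (γ + C + β) ^ 3 * ‖z‖ ^ 3 := by
        rw [mul_assoc, ← mul_pow]
        gcongr
      calc _ ≤ ‖Kb t - (t + 2 * t ^ 2)‖ + ‖(β : ℂ) * (Kb z - (z + 2 * z ^ 2))‖ +
            ‖t - (β * z + (2 * β - 2 * β ^ 2) * z ^ 2)‖ + ‖(2 : ℂ) * ((t - β * z) * (t + β * z))‖ :=
            (norm_add_le _ _).trans (add_le_add ((norm_add_le _ _).trans (add_le_add (norm_sub_le _ _) le_rfl)) le_rfl)
        _ ≤ 16 * (γ + C + β) ^ 3 * ‖z‖ ^ 3 + 16 * β * ‖z‖ ^ 3 + C * ‖z‖ ^ 3 +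
            2 * (γ + C) * (γ + C + 2 * β) * ‖z‖ ^ 3 := by
            refine add_le_add (add_le_add (add_le_add (k1.trans n4) n1) ht4) n3
        _ = _ := by rw [hC1]; ring
    have k4 : β * ‖Kb z‖ < η + C1 * (8 / β * η) ^ 3 := by
      have h1 : ‖(β : ℂ) * Kb z‖ ≤ ‖Kb t‖ + ‖Kb t - β * Kb z‖ := by
        have e0 : Kb t - (Kb t - β * Kb z) = (β : ℂ) * Kb z := by ring
        have e1 := norm_sub_le (Kb t) (Kb t - β * Kb z)
        rwa [e0] at e1
      rw [norm_mul, norm_real, Real.norm_of_nonneg hβ.le] at h1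
      have h2 : C1 * ‖z‖ ^ 3 ≤ C1 * (8 / β * η) ^ 3 := by gcongr
      linarith
    have k5 : η / β + C1 * 512 / β ^ 4 * η ^ 3 = (η + C1 * (8 / β * η) ^ 3) / β := by
      field_simp
      ring
    rw [k5, lt_div_iff₀ hβ]
    linarith
  refine ⟨hsub.trans (image_mono (ball_subset_ball (by linarith))), (Nset_open hU η).measurableSet, ?_, ?_, ?_⟩
  · have h0 : (0 : ℂ) ∈ Nset F η := by
      refine ⟨mem_ball_self one_pos, 0, ⟨mem_ball_self one_pos, ?_⟩, ?_⟩
      · simp only [mem_ofPred_eq, Kb]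
        simpa using hη
      · rw [hU.F0]
        simp [Cd]
    exact Metric.isOpen_iff.1 (Nset_open hU η) 0 h0
  · intro z hz
    rw [mem_ball_zero_iff]
    refine (hbd z hz).1.trans_le ?_
    refine mul_le_mul_of_nonneg_right ?_ hη.le
    have : 0 < C1 * 512 / β ^ 4 := by positivity
    linarith
  · intro z hz
    refine (hbd z hz).2.trans_le ?_
    refine add_le_add le_rfl (mul_le_mul_of_nonneg_right ?_ (by positivity))
    have : 0 < 8 / β := by positivity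
    linarith

end

end Run7.h613.AC.NB
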