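import Pool.Agent.Run7.h104.AC.Defs

set_option autoImplicit false

/-! Piece RED of project AC (helper104), by helper613. -/

namespace Run7.h613.AC.RED

open MeasureTheory Complex Set Filter Topology Metric
open Pool.Agent.Run7.h104.AC

noncomputable section

theorem vol_mul (lam : ℂ) (S : Set ℂ) :
    volume ((fun w : ℂ => lam * w) '' S) = ENNReal.ofReal (‖lam‖ ^ 2) * volume S := by
  have h := Measure.addHaar_image_linearMap (μ := (volume : Measure ℂ)) (Algebra.lmul ℝ ℂ lam) S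
  have e1 : ((Algebra.lmul ℝ ℂ lam : ℂ →ₗ[ℝ] ℂ) : ℂ → ℂ) = fun w => lam * w := by
    funext w
    simp
  have e2 : LinearMap.det (Algebra.lmul ℝ ℂ lam) = ‖lam‖ ^ 2 := by
    have := Algebra.norm_complex_apply lam
    rw [Algebra.norm_apply] at this
    rw [← Complex.normSq_eq_norm_sq]
    exact this
  rw [e2, abs_of_nonneg (by positivity), e1] at h
  exact h

theorem key (h : S_MAIN) {f : ℂ → ℂ} (hf : IsS f) (hA : volume (f '' ball (0 : ℂ) 1) ≠ ⊤) {τ : ℝ} (h0 : 0 < τ) (h1 : τ < 1)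
    (h2 : τ * ‖a2 f‖ < 2) :
    27 * Real.pi / 8 * τ ^ 2 ≤ (2 - τ * ‖a2 f‖) ^ 2 * (volume (f '' ball (0 : ℂ) 1)).toReal := by
  obtain ⟨u, hu1, hu2⟩ : ∃ u : ℂ, ‖u‖ = 1 ∧ u * a2 f = (‖a2 f‖ : ℂ) := by
    by_cases ha : a2 f = 0
    · exact ⟨1, by simp, by rw [ha]; simp⟩
    · have hn : (‖a2 f‖ : ℂ) ≠ 0 := by exact_mod_cast (norm_ne_zero_iff.2 ha)
      refine ⟨(starRingEnd ℂ) (a2 f) / (‖a2 f‖ : ℂ), ?_, ?_⟩
      · rw [norm_div, RCLike.norm_conj, norm_real, norm_norm, div_self (norm_ne_zero_iff.2 ha)]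
      · rw [div_mul_eq_mul_div, mul_comm, Complex.mul_conj, div_eq_iff hn, Complex.normSq_eq_norm_sq]
        push_cast
        ring
  have hu0 : u ≠ 0 := by
    intro hh
    rw [hh, norm_zero] at hu1
    norm_num at hu1
  set β : ℝ := 2 / 3 * (2 - τ * ‖a2 f‖) with hβ
  have hβ0 : 0 < β := by rw [hβ]; linarith
  set mu : ℂ := (τ : ℂ) * u with hmu
  have hmu0 : mu ≠ 0 := mul_ne_zero (by exact_mod_cast h0.ne') hu0
  have hmun : ‖mu‖ = τ := by rw [hmu, norm_mul, hu1, mul_one, norm_real, Real.norm_of_nonneg h0.le]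
  set lam : ℂ := (β : ℂ) / mu with hlam
  have hlam0 : lam ≠ 0 := div_ne_zero (by exact_mod_cast hβ0.ne') hmu0
  have hlm : lam * mu = β := by rw [hlam]; field_simp
  have hmaps : ∀ z ∈ ball (0 : ℂ) (1 / τ), mu * z ∈ ball (0 : ℂ) 1 := by
    intro z hz
    rw [mem_ball_zero_iff] at hz ⊢
    rw [norm_mul, hmun]
    rw [lt_div_iff₀ h0] at hz
    linarith
  have hd1 : ∀ g : ℂ → ℂ, deriv (fun z => g (mu * z)) = fun z => mu * deriv g (mu * z) := by
    intro g
    funext z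
    rw [deriv_comp_mul_left, smul_eq_mul]
  have hU : Uni (1 / τ) β (fun z => lam * f (mu * z)) := by
    refine ⟨?_, hβ0, ?_, ?_, ?_, ?_, ?_⟩
    · rw [lt_div_iff₀ h0]; linarith
    · refine (DifferentiableOn.comp hf.hf ?_ hmaps).const_mul lam
      exact (differentiable_id.const_mul mu).differentiableOn
    · intro z hz w hw hzw
      have h3 : f (mu * z) = f (mu * w) := mul_left_cancel₀ hlam0 hzw
      exact mul_left_cancel₀ hmu0 (hf.inj (hmaps z hz) (hmaps w hw) h3)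
    · simp [hf.f0]
    · rw [deriv_const_mul_field, hd1]
      simp only [mul_zero, hf.f1, mul_one]
      exact hlm
    · have e1 : deriv (fun z => lam * f (mu * z)) = fun z => lam * (mu * deriv f (mu * z)) := by
        funext z
        rw [deriv_const_mul_field, hd1]
      have e2 : (fun z => lam * (mu * deriv f (mu * z))) = fun z => (lam * mu) * deriv f (mu * z) := by
        funext z
        ring
      rw [e1, e2, deriv_const_mul_field, hd1]
      simp only [mul_zero]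
      have e3 : deriv (deriv f) 0 = 2 * a2 f := by
        unfold a2
        ring
      rw [e3, hlm, hmu]
      have e4 : (τ : ℂ) * u * (2 * a2 f) = 2 * τ * (u * a2 f) := by ring
      rw [e4, hu2]
      have e5 : 2 - 3 * β / 2 = τ * ‖a2 f‖ := by rw [hβ]; ring
      rw [e5]
      push_cast
      ring
  have h3 := h _ _ _ hU
  have h4 : (fun z => lam * f (mu * z)) '' ball (0 : ℂ) 1 ⊆ (fun w => lam * w) '' (f '' ball (0 : ℂ) 1) := by
    rintro _ ⟨z, hz, rfl⟩
    refine ⟨f (mu * z), ⟨mu * z, ?_, rfl⟩, rfl⟩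
    refine hmaps z (ball_subset_ball ?_ hz)
    rw [le_div_iff₀ h0]; linarith
  have h5 := h3.trans (measure_mono h4)
  rw [vol_mul] at h5
  have h6 := ENNReal.toReal_mono (ENNReal.mul_ne_top ENNReal.ofReal_ne_top hA) h5
  rw [ENNReal.toReal_mul, ENNReal.toReal_ofReal (by positivity), ENNReal.toReal_ofReal (by positivity)] at h6
  have e6 : ‖lam‖ = β / τ := by rw [hlam, norm_div, hmun, norm_real, Real.norm_of_nonneg hβ0.le]
  rw [e6] at h6
  set A := (volume (f '' ball (0 : ℂ) 1)).toReal with hAdef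
  have h7 : 3 * Real.pi / 2 * τ ^ 2 ≤ β ^ 2 * A := by
    have h8 : (β / τ) ^ 2 * A * τ ^ 2 = β ^ 2 * A := by field_simp
    rw [← h8]
    exact mul_le_mul_of_nonneg_right h6 (by positivity)
  rw [hβ] at h7
  nlinarith

theorem t_RED (h : S_MAIN) : S_RED := by
  intro f hf hA
  set a := ‖a2 f‖ with ha
  set A := (volume (f '' ball (0 : ℂ) 1)).toReal with hAdef
  have ha0 : 0 ≤ a := norm_nonneg _
  have hpi := Real.pi_pos
  -- passage to the limit
  have lim : ∀ τ₀ : ℝ, 0 < τ₀ → τ₀ ≤ 1 → τ₀ * a ≤ 2 → 27 * Real.pi / 8 * τ₀ ^ 2 ≤ (2 - τ₀ * a) ^ 2 * A := by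
    intro τ₀ h0 h1 h2
    have c1 : Tendsto (fun τ : ℝ => 27 * Real.pi / 8 * τ ^ 2) (𝓝[<] τ₀) (𝓝 (27 * Real.pi / 8 * τ₀ ^ 2)) := by
      have : Continuous fun τ : ℝ => 27 * Real.pi / 8 * τ ^ 2 := by fun_prop
      exact (this.tendsto τ₀).mono_left nhdsWithin_le_nhds
    have c2 : Tendsto (fun τ : ℝ => (2 - τ * a) ^ 2 * A) (𝓝[<] τ₀) (𝓝 ((2 - τ₀ * a) ^ 2 * A)) := by
      have : Continuous fun τ : ℝ => (2 - τ * a) ^ 2 * A := by fun_prop
      exact (this.tendsto τ₀).mono_left nhdsWithin_le_nhds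
    refine le_of_tendsto_of_tendsto c1 c2 ?_
    filter_upwards [Ioo_mem_nhdsLT h0] with τ hτ
    refine key h hf hA hτ.1 (lt_of_lt_of_le hτ.2 h1) ?_
    rw [← ha]
    rcases ha0.eq_or_lt with h3 | h3
    · rw [← h3]; norm_num
    · exact lt_of_lt_of_le (mul_lt_mul_of_pos_right hτ.2 h3) h2
  have h1 : a < 2 := by
    by_contra hcon
    push Not at hcon
    have ha1 : 0 < a := by linarith
    have h2 := lim (2 / a) (by positivity) (by rw [div_le_one ha1]; exact hcon) (by field_simp; exact le_refl _)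
    have h3 : 2 - 2 / a * a = 0 := by field_simp; ring
    rw [h3] at h2
    have h4 : 0 < 27 * Real.pi / 8 * (2 / a) ^ 2 := by positivity
    norm_num at h2
    nlinarith
  refine ⟨h1, ?_⟩
  have h2 := lim 1 one_pos le_rfl (by linarith)
  simpa using h2

end

end Run7.h613.AC.RED
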